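import Pool.Agent.Helper33.QB.Defs

/-!
# Project QB, module A2a: basic facts on ranked rings
-/

set_option autoImplicit false

namespace Pool.Agent.Helper33.QB

open Set

variable {Ω : Type} {Y : Set Ω} {R : Set (Set Ω)} {r r' : Ω → Ordinal.{0}}

theorem GR.inter (h : GR Y R r) {K K' : Set Ω} (hK : K ∈ R) (hK' : K' ∈ R) : K ∩ K' ∈ R := by
  have h1 := h.df K hK (K \ K') (h.df K hK K' hK')
  rwa [sdiff_sdiff_right_self] at h1

theorem GR.sUnion (h : GR Y R r) {F : Set (Set Ω)} (hF : F.Finite) (hFR : F ⊆ R) :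
    ⋃₀ F ∈ R := by
  induction F, hF using Set.Finite.induction_on with
  | empty => rw [sUnion_empty]; exact h.emp
  | insert _ _ ih =>
    rw [sUnion_insert]
    exact h.un _ (hFR (mem_insert _ _)) _ (ih fun K hK => hFR (mem_insert_of_mem _ hK))

/-- finitely many points can be removed from a neighbourhood -/
theorem h45_remove (h : GR Y R r) {K : Set Ω} (hK : K ∈ R) {x : Ω} (hx : x ∈ K) {T : Set Ω}
    (hT : T.Finite) (hTK : T ⊆ K) (hxT : x ∉ T) :
    ∃ L ∈ R, L ⊆ K ∧ x ∈ L ∧ ∀ t ∈ T, t ∉ L := by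
  induction T, hT using Set.Finite.induction_on with
  | empty => exact ⟨K, hK, le_rfl, hx, fun t ht => absurd ht (notMem_empty t)⟩
  | @insert a s _ _ ih =>
    obtain ⟨L, hL, hLK, hxL, hs⟩ := ih (fun t ht => hTK (mem_insert_of_mem _ ht))
      (fun hx' => hxT (mem_insert_of_mem _ hx'))
    have hne : x ≠ a := fun hxa => hxT (hxa ▸ mem_insert _ _)
    obtain ⟨M, hM, hxM, haM⟩ := h.sep x (h.sub K hK hx) a (h.sub K hK (hTK (mem_insert _ _))) hne
    refine ⟨L ∩ M, h.inter hL hM, fun y hy => hLK hy.1, ⟨hxL, hxM⟩, fun t ht htL => ?_⟩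
    rcases ht with rfl | ht
    · exact haM htL.2
    · exact hs t ht htL.1

/-- The small neighbourhoods inside a given one. -/
theorem GR.nbhd (h : GR Y R r) {K : Set Ω} (hK : K ∈ R) {x : Ω} (hx : x ∈ K) :
    ∃ K' ∈ R, K' ⊆ K ∧ x ∈ K' ∧ ∀ y ∈ K', y ≠ x → r y < r x := by
  have key : ∀ m : Ordinal.{0}, ∀ K ∈ R, x ∈ K → (∀ y ∈ K, r y ≤ m) →
      ∃ K' ∈ R, K' ⊆ K ∧ x ∈ K' ∧ ∀ y ∈ K', y ≠ x → r y < r x := by
    intro m
    induction m using WellFoundedLT.induction with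
    | _ m ih =>
      intro K hK hx hm
      obtain ⟨x0, hx0, hmax, hfin⟩ := h.top K hK ⟨x, hx⟩
      obtain ⟨L, hL, hLK, hxL, hLT⟩ := h45_remove h hK hx
        (T := {y | y ∈ K ∧ r y = r x0} \ {x}) (hfin.subset sdiff_subset)
        (fun y hy => hy.1.1) (fun hx' => hx'.2 rfl)
      by_cases hxx : r x = r x0
      · refine ⟨L, hL, hLK, hxL, fun y hy hyx => ?_⟩
        refine lt_of_le_of_ne (hxx ▸ hmax y (hLK hy)) fun hyr => ?_
        exact hLT y ⟨⟨hLK hy, hyr.trans hxx⟩, hyx⟩ hy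
      · have hlt : ∀ y ∈ L, r y < r x0 := by
          intro y hy
          refine lt_of_le_of_ne (hmax y (hLK hy)) fun hyr => ?_
          by_cases hyx : y = x
          · exact hxx (hyx ▸ hyr)
          · exact hLT y ⟨⟨hLK hy, hyr⟩, hyx⟩ hy
        obtain ⟨x1, hx1, hmax1, -⟩ := h.top L hL ⟨x, hxL⟩
        obtain ⟨K', hK', hK'L, hxK', hlt'⟩ :=
          ih (r x1) ((hlt x1 hx1).trans_le (hm x0 hx0)) L hL hxL hmax1
        exact ⟨K', hK', hK'L.trans hLK, hxK', hlt'⟩
  obtain ⟨x0, -, hmax, -⟩ := h.top K hK ⟨x, hx⟩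
  exact key (r x0) K hK hx hmax

/-- Compactness of the members of `R`. -/
theorem GR.compact (h : GR Y R r) {K : Set Ω} (hK : K ∈ R) {U : Set (Set Ω)} (hU : U ⊆ R)
    (hc : K ⊆ ⋃₀ U) : ∃ F ⊆ U, F.Finite ∧ K ⊆ ⋃₀ F := by
  have key : ∀ m : Ordinal.{0}, ∀ K ∈ R, (∀ y ∈ K, r y < m) → K ⊆ ⋃₀ U →
      ∃ F ⊆ U, F.Finite ∧ K ⊆ ⋃₀ F := by
    intro m
    induction m using WellFoundedLT.induction with
    | _ m ih =>
      intro K hK hm hc
      rcases K.eq_empty_or_nonempty with rfl | hne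
      · exact ⟨∅, empty_subset _, finite_empty, empty_subset _⟩
      obtain ⟨x0, hx0, hmax, hfin⟩ := h.top K hK hne
      have hch : ∀ t : Ω, ∃ V : Set Ω, t ∈ K → V ∈ U ∧ t ∈ V := by
        intro t
        by_cases ht : t ∈ K
        · obtain ⟨V, hV, htV⟩ := hc ht
          exact ⟨V, fun _ => ⟨hV, htV⟩⟩
        · exact ⟨∅, fun h' => absurd h' ht⟩
      choose V hV using hch
      set F0 : Set (Set Ω) := V '' {y | y ∈ K ∧ r y = r x0} with hF0
      have hF0U : F0 ⊆ U := by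
        rintro _ ⟨t, ht, rfl⟩
        exact (hV t ht.1).1
      have hF0f : F0.Finite := hfin.image V
      have hK' : K \ ⋃₀ F0 ∈ R := h.df K hK _ (h.sUnion hF0f (hF0U.trans hU))
      have hlt : ∀ y ∈ K \ ⋃₀ F0, r y < r x0 := by
        intro y hy
        refine lt_of_le_of_ne (hmax y hy.1) fun hyr => hy.2 ?_
        exact ⟨V y, ⟨y, ⟨hy.1, hyr⟩, rfl⟩, (hV y hy.1).2⟩
      obtain ⟨F, hFU, hFf, hFc⟩ := ih (r x0) (hm x0 hx0) _ hK' hlt
        (fun y hy => hc hy.1)
      refine ⟨F0 ∪ F, union_subset hF0U hFU, hF0f.union hFf, fun y hy => ?_⟩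
      rw [sUnion_union]
      by_cases hy0 : y ∈ ⋃₀ F0
      · exact Or.inl hy0
      · exact Or.inr (hFc ⟨hy, hy0⟩)
  rcases K.eq_empty_or_nonempty with rfl | hne
  · exact ⟨∅, empty_subset _, finite_empty, empty_subset _⟩
  obtain ⟨x0, -, hmax, -⟩ := h.top K hK hne
  exact key (Order.succ (r x0)) K hK (fun y hy => Order.lt_succ_iff.2 (hmax y hy)) hc

theorem GR.compact_cl (h : GR Y R r) {E : Set Ω} (hE : Cl Y R E) {K : Set Ω} (hK : K ∈ R)
    {U : Set (Set Ω)} (hU : U ⊆ R) (hc : K ∩ E ⊆ ⋃₀ U) :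
    ∃ F ⊆ U, F.Finite ∧ K ∩ E ⊆ ⋃₀ F := by
  have hc' : K ⊆ ⋃₀ (U ∪ {L | L ∈ R ∧ L ∩ E = ∅}) := by
    intro x hx
    by_cases hxE : x ∈ E
    · obtain ⟨V, hV, hxV⟩ := hc ⟨hx, hxE⟩
      exact ⟨V, Or.inl hV, hxV⟩
    · obtain ⟨L, hL, hxL, hLE⟩ := hE.2 x (h.sub K hK hx) hxE
      exact ⟨L, Or.inr ⟨hL, hLE⟩, hxL⟩
  obtain ⟨F, hFU, hFf, hFc⟩ := h.compact hK
    (U := U ∪ {L | L ∈ R ∧ L ∩ E = ∅}) (union_subset hU fun L hL => hL.1) hc'
  refine ⟨F ∩ U, inter_subset_right, hFf.subset inter_subset_left, ?_⟩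
  rintro x ⟨hx, hxE⟩
  obtain ⟨V, hV, hxV⟩ := hFc hx
  rcases hFU hV with hVU | hVE
  · exact ⟨V, ⟨hV, hVU⟩, hxV⟩
  · have : x ∈ V ∩ E := ⟨hxV, hxE⟩
    rw [hVE.2] at this
    exact absurd this (notMem_empty x)

/-- Compactness, for increasing sequences. -/
theorem GR.compact_seq (h : GR Y R r) {K : Set Ω} (hK : K ∈ R) {U : ℕ → Set Ω}
    (hU : ∀ n, U n ∈ R) (hm : Monotone U) (hc : K ⊆ ⋃ n, U n) : ∃ n, K ⊆ U n := by
  obtain ⟨F, hFU, hFf, hFc⟩ := h.compact hK (U := range U)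
    (by rintro _ ⟨n, rfl⟩; exact hU n) (by rwa [sUnion_range])
  have key : ∀ F : Set (Set Ω), F.Finite → F ⊆ range U → ∃ n, ⋃₀ F ⊆ U n := by
    intro F hF
    induction F, hF using Set.Finite.induction_on with
    | empty => intro _; exact ⟨0, by rw [sUnion_empty]; exact empty_subset _⟩
    | @insert a s _ _ ih =>
      intro hs
      obtain ⟨n, hn⟩ := ih fun V hV => hs (mem_insert_of_mem _ hV)
      obtain ⟨k, hk⟩ := hs (mem_insert _ _)
      refine ⟨max n k, ?_⟩
      rw [sUnion_insert, ← hk]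
      exact union_subset (hm (le_max_right _ _)) (hn.trans (hm (le_max_left _ _)))
  obtain ⟨n, hn⟩ := key F hFf hFU
  exact ⟨n, hFc.trans hn⟩

/-- Every neighbourhood contains points of every smaller rank. -/
theorem GR.exact (h : GR Y R r) {K : Set Ω} (hK : K ∈ R) {x : Ω} (hx : x ∈ K)
    {ρ : Ordinal.{0}} (hρ : ρ ≤ r x) : ∃ y ∈ K, r y = ρ := by
  have key : ∀ m : Ordinal.{0}, ∀ y ∈ K, r y = m → ρ ≤ m → ∃ y ∈ K, r y = ρ := by
    intro m
    induction m using WellFoundedLT.induction with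
    | _ m ih =>
      intro y hy hym hρm
      rcases hρm.eq_or_lt with heq | hlt
      · exact ⟨y, hy, hym.trans heq.symm⟩
      · obtain ⟨K', hK', hK'K, hyK', hsm⟩ := h.nbhd hK hy
        obtain ⟨z, hz, hzy, hρz⟩ := h.ex K' hK' y hyK' ρ (hym ▸ hlt)
        exact ih (r z) (hym ▸ hsm z hz hzy) z (hK'K hz) rfl hρz
  exact key (r x) x hx rfl hρ

/-- Induction over pieces. -/
theorem GR.pieces (h : GR Y R r) {Q : Set Ω → Prop} (h0 : Q ∅)
    (h1 : ∀ K ∈ R, ∀ K' ∈ R, K ∩ K' = ∅ → Q K → Q K' → Q (K ∪ K'))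
    (h2 : ∀ ρ K, Piece R r ρ K → Q K) : ∀ K ∈ R, Q K := by
  have key : ∀ m : Ordinal.{0}, ∀ K ∈ R, (∀ y ∈ K, r y < m) → Q K := by
    intro m
    induction m using WellFoundedLT.induction with
    | _ m ih =>
      intro K hK hm
      rcases K.eq_empty_or_nonempty with rfl | hne
      · exact h0
      obtain ⟨x0, hx0, hmax, hfin⟩ := h.top K hK hne
      have hlow : ∀ L ∈ R, (∀ y ∈ L, r y < r x0) → Q L := ih (r x0) (hm x0 hx0)
      have inner : ∀ n : ℕ, ∀ L ∈ R, (∀ y ∈ L, r y ≤ r x0) →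
          {y | y ∈ L ∧ r y = r x0}.Finite → {y | y ∈ L ∧ r y = r x0}.ncard = n → Q L := by
        intro n
        induction n with
        | zero =>
          intro L hL hle hf hc
          rw [Set.ncard_eq_zero hf] at hc
          refine hlow L hL fun y hy => lt_of_le_of_ne (hle y hy) fun hyr => ?_
          have : y ∈ {y | y ∈ L ∧ r y = r x0} := ⟨hy, hyr⟩
          rw [hc] at this
          exact notMem_empty y this
        | succ n ihn =>
          intro L hL hle hf hc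
          have hne' : {y | y ∈ L ∧ r y = r x0}.Nonempty := by
            rw [Set.nonempty_iff_ne_empty]
            intro he
            rw [he, Set.ncard_empty] at hc
            omega
          obtain ⟨t, htL, htr⟩ := hne'
          obtain ⟨K', hK', hK'L, htK', hsm⟩ := h.nbhd hL htL
          have hP : Piece R r (r x0) K' :=
            ⟨hK', t, htK', htr, fun y hy hyt => htr ▸ hsm y hy hyt⟩
          have hd : L \ K' ∈ R := h.df L hL K' hK'
          have hset : {y | y ∈ L \ K' ∧ r y = r x0} = {y | y ∈ L ∧ r y = r x0} \ {t} := by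
            ext y
            constructor
            · rintro ⟨⟨hyL, hyK⟩, hyr⟩
              exact ⟨⟨hyL, hyr⟩, fun hyt => hyK (by rw [hyt]; exact htK')⟩
            · rintro ⟨⟨hyL, hyr⟩, hyt⟩
              refine ⟨⟨hyL, fun hyK => ?_⟩, hyr⟩
              have := hsm y hyK hyt
              rw [hyr, htr] at this
              exact lt_irrefl _ this
          have hQ : Q (L \ K') := by
            refine ihn (L \ K') hd (fun y hy => hle y hy.1) ?_ ?_
            · rw [hset]; exact hf.subset sdiff_subset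
            · rw [hset, Set.ncard_sdiff_singleton_of_mem (show t ∈ {y | y ∈ L ∧ r y = r x0} from
                ⟨htL, htr⟩), hc]
              omega
          have hun : (L \ K') ∪ K' = L := sdiff_union_of_subset hK'L
          rw [← hun]
          refine h1 _ hd _ hK' ?_ hQ (h2 _ _ hP)
          rw [sdiff_inter_self]
      exact inner _ K hK hmax hfin rfl
  intro K hK
  rcases K.eq_empty_or_nonempty with rfl | hne
  · exact h0
  obtain ⟨x0, -, hmax, -⟩ := h.top K hK hne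
  exact key (Order.succ (r x0)) K hK (fun y hy => Order.lt_succ_iff.2 (hmax y hy))

/-- one half of the uniqueness of the rank -/
theorem h45_rank_le (h : GR Y R r) (h' : GR Y R r') : ∀ x ∈ Y, r x ≤ r' x := by
  have key : ∀ m : Ordinal.{0}, ∀ x ∈ Y, r' x = m → r x ≤ r' x := by
    intro m
    induction m using WellFoundedLT.induction with
    | _ m ih =>
      intro x hx hxm
      by_contra hlt
      rw [not_le] at hlt
      obtain ⟨K, hK, hxK⟩ := h.cov x hx
      obtain ⟨K', hK', -, hxK', hsm⟩ := h'.nbhd hK hxK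
      obtain ⟨y, hy, hyx, hle⟩ := h.ex K' hK' x hxK' (r' x) hlt
      have h1 := hsm y hy hyx
      have h2 := ih (r' y) (hxm ▸ h1) y (h.sub K' hK' hy) rfl
      exact absurd (hle.trans h2) (not_le.2 h1)
  exact fun x hx => key (r' x) x hx rfl

/-- The rank is determined by the ring. -/
theorem GR.rank_unique (h : GR Y R r) (h' : GR Y R r') : ∀ x ∈ Y, r x = r' x :=
  fun x hx => le_antisymm (h45_rank_le h h' x hx) (h45_rank_le h' h x hx)

theorem GR.congr (h : GR Y R r) (hr : ∀ x ∈ Y, r x = r' x) : GR Y R r' := by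
  refine { sub := h.sub, emp := h.emp, un := h.un, df := h.df, cov := h.cov, sep := h.sep,
           top := ?_, ex := ?_ }
  · intro K hK hne
    obtain ⟨x, hx, hmax, hfin⟩ := h.top K hK hne
    refine ⟨x, hx, fun y hy => ?_, ?_⟩
    · rw [← hr y (h.sub K hK hy), ← hr x (h.sub K hK hx)]
      exact hmax y hy
    · refine hfin.subset ?_
      rintro y ⟨hy, hyr⟩
      refine ⟨hy, ?_⟩
      rw [hr y (h.sub K hK hy), hr x (h.sub K hK hx)]
      exact hyr
  · intro K hK x hx β hβ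
    rw [← hr x (h.sub K hK hx)] at hβ
    obtain ⟨y, hy, hyx, hle⟩ := h.ex K hK x hx β hβ
    exact ⟨y, hy, hyx, by rw [← hr y (h.sub K hK hy)]; exact hle⟩

end Pool.Agent.Helper33.QB
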