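import Pool.Agent.Helper72.QB.Interval
import Pool.Agent.Helper54.QB.Choice1
import Pool.Agent.Helper84.QB.Acts
import Pool.Agent.Helper61.QB.Order

/-!
# Project QB, module J2b: the choice of the neighbourhoods
-/

set_option autoImplicit false

namespace Pool.Agent.Helper33.QB

open Set

universe v

variable {Ω : Type} {I : Type v} {α : Ordinal.{0}}

variable {pn : ℕ → Cnd Ω I} {p : Cnd Ω I} {xn : ℕ → Ω} {pt : ℕ → FreeGroup I → Ω}

/-- A countable set is an increasing union of finite sets. -/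
private theorem h45c_exh {β : Type*} {S : Set β} (hS : S.Countable) :
    ∃ F : ℕ → Set β, (∀ n, (F n).Finite ∧ F n ⊆ S) ∧ ∀ x ∈ S, ∃ N : ℕ, ∀ n ≥ N, x ∈ F n := by
  obtain ⟨f, hf⟩ := Set.countable_iff_exists_injOn.1 hS
  refine ⟨fun n => {x | x ∈ S ∧ f x ≤ n}, fun n => ⟨?_, fun x hx => hx.1⟩, fun x hx =>
    ⟨f x, fun n hn => ⟨hx, hn⟩⟩⟩
  refine Set.Finite.of_injOn (f := f) (t := Set.Iic n) (fun x hx => hx.2)
    (hf.mono fun x hx => hx.1) (Set.finite_Iic n)

private theorem h45c_S (h : LimSet α pn p xn pt) {m n : ℕ} (hmn : m ≤ n) : (pn m).S ⊆ (pn n).S := by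
  induction n, hmn using Nat.le_induction with
  | base => exact subset_rfl
  | succ k hk ih => exact ih.trans (h.le k).S

private theorem h45c_sub (h : LimSet α pn p xn pt) (n : ℕ) : Itv pn n ⊆ p.Y :=
  fun _ hx => (h.un.le (n + 1)).cp.sub hx.1

private theorem h45c_side (h : LimSet α pn p xn pt) (n : ℕ) {i : I} (hi : i ∈ (pn n).S) {x : Ω}
    (hx : x ∈ p.Y) : x ∈ (pn n).Y ↔ p.h i x ∈ (pn n).Y := by
  constructor
  · intro hx'
    rw [(h.un.le n).h i hi x hx']
    exact ((h.bn n).ce i hi).maps x hx'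
  · intro hx'
    by_contra hcon
    exact (h.un.le n).out i hi x hx hcon hx'

private theorem h45c_itv (h : LimSet α pn p xn pt) (n : ℕ) {i : I} (hi : i ∈ (pn n).S) {x : Ω}
    (hx : x ∈ p.Y) : x ∈ Itv pn n ↔ p.h i x ∈ Itv pn n := by
  have h1 := h45c_side h n hi hx
  have h2 := h45c_side h (n + 1) ((h.le n).S hi) hx
  unfold Itv
  simp only [mem_sdiff]
  rw [h1, h2]

private theorem h45c_path (h : LimSet α pn p xn pt) {m n : ℕ} (hmn : m ≤ n) {g : FreeGroup I}
    {x y : Ω} (hx : x ∈ Itv pn n) (ha : Acts (New (pn m) p) g x y) :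
    Acts (fun i x y => i ∈ (pn n).S ∧ x ∈ Itv pn n ∧ y = p.h i x) g x y := by
  have h1 := Acts.restrict (A := Itv pn n) (fun i x y hxy => by
    obtain ⟨hi, hx1, hx2, rfl⟩ := hxy
    exact h45c_itv h n (h45c_S h hmn hi) hx1) ha hx
  refine Acts.mono ?_ h1
  rintro i x y ⟨⟨hi, hx1, hx2, hy⟩, hxA⟩
  exact ⟨h45c_S h hmn hi, hxA, hy⟩

private theorem h45c_full (h : LimSet α pn p xn pt) {m : ℕ} :
    ∀ i x y, New (pn m) p i x y → Full p i x y := by
  rintro i x y ⟨hi, hx1, hx2, hy⟩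
  exact ⟨(h.un.le m).S hi, hx1, hy⟩

/-- The reduced word of the tail of a word. -/
private theorem h45c_toWord [DecidableEq I] {w : FreeGroup I} {t : List (I × Bool)}
    (ht : t <:+ w.toWord) : (FreeGroup.mk t).toWord = t := by
  have h1 : FreeGroup.IsReduced w.toWord := FreeGroup.isReduced_toWord
  have h2 : FreeGroup.IsReduced t := by
    obtain ⟨a, ha⟩ := ht
    rw [← ha] at h1
    unfold FreeGroup.IsReduced at *
    exact h1.right_of_append
  rw [FreeGroup.toWord_mk]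
  exact h2.reduce_eq

private theorem h45c_tail [DecidableEq I] (h : LimSet α pn p xn pt) {w : FreeGroup I}
    (hw : w ∈ R0 p xn) {a : I × Bool} {t : List (I × Bool)} (ht : w.toWord = a :: t) :
    FreeGroup.mk t ∈ R0 p xn := by
  obtain ⟨N, hN⟩ := hw
  refine ⟨N, fun n hn => ?_⟩
  obtain ⟨y, hy⟩ := hN n hn
  obtain ⟨z, hz, -⟩ := Acts.uncons (Full.pf h.b) ht hy
  exact ⟨z, hz⟩

private theorem h45c_suffix [DecidableEq I] (h : LimSet α pn p xn pt) :
    ∀ (L : List (I × Bool)) (w : FreeGroup I), w.toWord = L → w ∈ R0 p xn →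
      ∀ t, t <:+ L → FreeGroup.mk t ∈ R0 p xn := by
  intro L
  induction L with
  | nil =>
    intro w hw hR t ht
    rw [List.suffix_nil.1 ht]
    have : w = 1 := FreeGroup.toWord_eq_nil_iff.1 hw
    rw [this] at hR
    exact hR
  | cons a L ih =>
    intro w hw hR t ht
    rcases List.suffix_cons_iff.1 ht with rfl | ht
    · rw [← hw, FreeGroup.mk_toWord]
      exact hR
    · have h1 : FreeGroup.mk L ∈ R0 p xn := h45c_tail h hR hw
      refine ih (FreeGroup.mk L) ?_ h1 t ht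
      refine h45c_toWord (w := w) ?_
      rw [hw]
      exact List.suffix_cons a L

theorem exists_ek (h : LimSet α pn p xn pt) :
    ∃ K : ℕ → FreeGroup I → Set Ω, EK pn p xn pt K := by
  classical
  obtain ⟨U, hU, hU'⟩ := h45c_exh h.r0_countable
  obtain ⟨F, hF, hF'⟩ := h45c_exh h.b.cS
  -- the good words
  let P : ℕ → FreeGroup I → Prop := fun n w =>
    w = 1 ∨ (w ∈ U n ∧ Acts (New (pn n) p) w (xn n) (pt n w))
  let W : ℕ → Set (FreeGroup I) := fun n => {w | ∀ t, t <:+ w.toWord → P n (FreeGroup.mk t)}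
  have hWP : ∀ n, ∀ w ∈ W n, P n w := by
    intro n w hw
    have := hw w.toWord List.suffix_rfl
    rwa [FreeGroup.mk_toWord] at this
  have hWfin : ∀ n, (W n).Finite := by
    intro n
    refine (((hU n).1).insert 1).subset ?_
    intro w hw
    rcases hWP n w hw with h1 | h1
    · exact Or.inl h1
    · exact Or.inr h1.1
  have hW1 : ∀ n, (1 : FreeGroup I) ∈ W n := by
    intro n t ht
    rw [FreeGroup.toWord_one] at ht
    rw [List.suffix_nil.1 ht]
    exact Or.inl FreeGroup.one_eq_mk.symm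
  have hWt : ∀ n, TailC (W n) := by
    intro n w hw a t hwt
    have h1 : t <:+ w.toWord := by
      rw [hwt]
      exact List.suffix_cons a t
    intro t' ht'
    rw [h45c_toWord h1] at ht'
    exact hw t' (ht'.trans h1)
  have hitvn : ∀ n, xn n ∈ Itv pn n := fun n => h.x n
  have hpt1 : ∀ n, pt n 1 = xn n := fun n => h.pt n 1 (xn n) (Acts.one _)
  have hpt : ∀ n, ∀ w ∈ W n,
      Acts (fun i x y => i ∈ (pn n).S ∧ x ∈ Itv pn n ∧ y = p.h i x) w (xn n) (pt n w) := by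
    intro n w hw
    rcases hWP n w hw with rfl | ⟨-, h1⟩
    · rw [hpt1]
      exact Acts.one _
    · exact h45c_path h le_rfl (hitvn n) h1
  -- eventually all words are good
  have hev : ∀ w ∈ R0 p xn, ∃ N : ℕ, ∀ n ≥ N, w ∈ W n := by
    intro w hw
    have hs : ∀ t, t <:+ w.toWord → ∃ N : ℕ, ∀ n ≥ N, P n (FreeGroup.mk t) := by
      intro t ht
      have ht' := h45c_suffix h _ w rfl hw t ht
      obtain ⟨N1, hN1⟩ := hU' _ ht'
      obtain ⟨N2, hN2⟩ := h.acts ht'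
      exact ⟨max N1 N2, fun n hn => Or.inr ⟨hN1 n ((le_max_left _ _).trans hn),
        (hN2 n ((le_max_right _ _).trans hn)).1⟩⟩
    have hfin : {t | t <:+ w.toWord}.Finite := by
      refine (w.toWord.tails.finite_toSet).subset ?_
      intro t ht
      exact (List.mem_tails _ _).2 ht
    choose! N hN using hs
    obtain ⟨M, hM⟩ := (hfin.image N).bddAbove
    refine ⟨M, fun n hn t ht => hN t ht n ?_⟩
    exact (hM (mem_image_of_mem N ht)).trans hn
  have hKn : ∀ n, ∃ K : FreeGroup I → Set Ω,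
      (∀ w ∈ W n, K w ∈ p.R ∧ K w ⊆ Itv pn n ∧ pt n w ∈ K w ∧
        ∀ y ∈ K w, y ≠ pt n w → p.r y < p.r (pt n w)) ∧
      (∀ w ∈ W n, ∀ w' ∈ W n, ∀ x ∈ K w, ∀ y ∈ K w', ∀ g,
        Acts (fun i x y => i ∈ (pn n).S ∧ x ∈ Itv pn n ∧ y = p.h i x) g x y → g = w' * w⁻¹) ∧
      (∀ w ∈ W n, ∀ i ∈ (pn n).S, FreeGroup.of i * w ∈ W n →
        K (FreeGroup.of i * w) ∩ p.h i '' p.Y = p.h i '' K w) ∧
      ∀ w ∈ W n, ∀ i ∈ F n ∩ (pn n).S, pt n w ∉ p.h i '' p.Y → K w ∩ p.h i '' p.Y = ∅ := by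
    intro n
    refine interval h.b.gr (fun i hi => h.b.ce i ((h.un.le n).S hi)) (h45c_sub h n) ?_
      (fun i hi x hx => h45c_itv h n hi hx) ?_ ?_ (hitvn n) (hWfin n) (hW1 n) (hWt n)
      (hpt n) (((hF n).1).subset inter_subset_left) inter_subset_right
    · intro K hK
      have h1 : K ∩ Itv pn n = (K ∩ (pn (n + 1)).Y) \ (K ∩ (pn n).Y) := by
        ext x
        simp only [Itv, mem_inter_iff, mem_sdiff, not_and]
        tauto
      rw [h1]
      exact h.b.gr.df _ ((h.un.le (n + 1)).cp.cut K hK) _ ((h.un.le n).cp.cut K hK)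
    · refine Free.mono ?_ (h.un.le n).fr
      rintro i x y ⟨hi, hx, hy⟩
      exact ⟨hi, h45c_sub h n hx, hx.2, hy⟩
    · refine Proper.mono ?_ (h.un.le n).pr
      rintro i x y ⟨hi, hx, hy⟩
      exact ⟨hi, h45c_sub h n hx, hx.2, hy⟩
  choose K hK1 hK2 hK3 hK4 using hKn
  have hiS : ∀ i ∈ p.S, ∃ N : ℕ, ∀ n ≥ N, i ∈ (pn n).S := by
    intro i hi
    rw [h.un.S, mem_iUnion] at hi
    obtain ⟨N, hN⟩ := hi
    exact ⟨N, fun n hn => h45c_S h hn hN⟩
  refine ⟨K, ⟨?_, ?_, ?_, ?_⟩⟩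
  · intro w hw
    obtain ⟨N, hN⟩ := hev w hw
    exact ⟨N, fun n hn => hK1 n w (hN n hn)⟩
  · intro w hw w' hw' m
    obtain ⟨N, hN⟩ := hev w hw
    obtain ⟨N', hN'⟩ := hev w' hw'
    refine ⟨max (max N N') m, fun n hn x hx y hy g hg => ?_⟩
    have hn1 : N ≤ n := ((le_max_left _ _).trans (le_max_left _ _)).trans hn
    have hn2 : N' ≤ n := ((le_max_right _ _).trans (le_max_left _ _)).trans hn
    have hn3 : m ≤ n := (le_max_right _ _).trans hn
    refine hK2 n w (hN n hn1) w' (hN' n hn2) x hx y hy g ?_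
    exact h45c_path h hn3 ((hK1 n w (hN n hn1)).2.1 hx) hg
  · intro w hw i hi
    obtain ⟨N, hN⟩ := hev w hw
    obtain ⟨N', hN'⟩ := hev _ (h.of_mul_mem hw hi)
    obtain ⟨N'', hN''⟩ := hiS i hi
    refine ⟨max (max N N') N'', fun n hn => ?_⟩
    have hn1 : N ≤ n := ((le_max_left _ _).trans (le_max_left _ _)).trans hn
    have hn2 : N' ≤ n := ((le_max_right _ _).trans (le_max_left _ _)).trans hn
    have hn3 : N'' ≤ n := (le_max_right _ _).trans hn
    exact hK3 n w (hN n hn1) i (hN'' n hn3) (hN' n hn2)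
  · intro w hw i hi hni
    obtain ⟨N, hN⟩ := hev w hw
    obtain ⟨N1, hN1⟩ := hiS i hi
    obtain ⟨N2, hN2⟩ := hF' i hi
    obtain ⟨N3, hN3⟩ := h.acts hw
    rcases h.st ((FreeGroup.of i)⁻¹ * w) with ⟨M, β, -, hM⟩ | ⟨N4, hN4⟩
    · exact absurd ⟨M, fun n hn => (hM n hn).imp fun y hy => hy.1⟩ hni
    · refine ⟨max (max (max N N1) (max N2 N3)) N4, fun n hn => ?_⟩
      have hn0 : N ≤ n := by omega
      have hn1 : N1 ≤ n := by omega
      have hn2 : N2 ≤ n := by omega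
      have hn3 : N3 ≤ n := by omega
      have hn4 : N4 ≤ n := by omega
      refine hK4 n w (hN n hn0) i ⟨hN2 n hn2, hN1 n hn1⟩ ?_
      rintro ⟨z, hz, hzi⟩
      have h1 : Acts (Full p) w (xn n) (pt n w) := Acts.mono (h45c_full h) (hN3 n hn3).1
      exact hN4 n hn4 z (Acts.bwd h1 ⟨hi, hz, hzi.symm⟩)

end Pool.Agent.Helper33.QB
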